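import Pool.Agent.Q175.GPM.Main

/-!
# The relation `R` tilde is a left congruence on graph products of monoids

Let `M v` be monoids indexed by the vertices `v` of an arbitrary (finite or infinite) simple graph.
Their graph product `GProd Γ M` is the quotient of the free monoid on the disjoint union of the
`M v` by the congruence generated by the products inside of each `M v`, by `1 = ε`, and by the
commutation of letters of adjacent vertices. The relation `R` tilde on a monoid relates two elements
if they have the same idempotent left identities. If `R` tilde is a left congruence on every vertex
monoid, then it is a left congruence on the graph product. This answers Q1 of MP_96aaf1_al.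

The proof uses normal forms and this description of idempotents of the graph product: they are
obtained from `1` by the operations `c ↦ y c` (`y` an idempotent letter commuting with the
idempotent `c`) and `c ↦ y c x` with letters `x`, `y` of the same vertex such that `x y = 1`.
-/

set_option autoImplicit false

namespace Pool.Agent.Results.MP_96aaf1_al.LeftCongruence

open Pool.Agent.Q175.GPM

universe u w

/-- The relation `R` tilde: the same idempotent left identities. -/
def RTilde (S : Type*) [Monoid S] (a b : S) : Prop := ∀ e : S, e * e = e → (e * a = a ↔ e * b = b)

/-- Left congruences. -/
def IsLeftCongruence {S : Type*} [Monoid S] (r : S → S → Prop) : Prop :=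
  Equivalence r ∧ ∀ a b c : S, r a b → r (c * a) (c * b)

theorem result {V : Type u} (Γ : SimpleGraph V) (M : V → Type w) [∀ v, Monoid (M v)]
    (h : ∀ v, IsLeftCongruence (RTilde (M v))) : IsLeftCongruence (RTilde (GProd Γ M)) := by
  refine ⟨⟨fun a e _ => Iff.rfl, fun h e he => (h e he).symm,
    fun h h' e he => (h e he).trans (h' e he)⟩, fun a b c hab => ?_⟩
  exact leftCong (fun v a b c hab => (h v).2 a b c hab) a b c hab

end Pool.Agent.Results.MP_96aaf1_al.LeftCongruence
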